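import Pool.Agent.Lib.MP_5349a4_pr.M.Iface1
import Pool.Agent.Lib.MP_5349a4_pr.M.Base

/-!
# Module CONM: measurability of the connection events
-/

set_option autoImplicit false
open MeasureTheory Set
open scoped ENNReal NNReal

namespace Pool.Agent.Lib.MP_5349a4_pr.H48

/-- a point with `s` is reached from `x` in exactly `n` steps -/
def HsN {E : Type} (adj : E → E → Prop) (s : E → Prop) (P : Set E) : ℕ → E → Prop
  | 0, x => s x
  | n + 1, x => ∃ p ∈ P, adj x p ∧ HsN adj s P n p

theorem hs_iff_hsN {E : Type} (adj : E → E → Prop) (s : E → Prop) (P : Set E) (x : E) :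
    Hs adj s P x ↔ ∃ n, HsN adj s P n x := by
  constructor
  · rintro ⟨a, ha, hs⟩
    have ha' : Relation.ReflTransGen (step adj P) x a := ha
    induction ha' using Relation.ReflTransGen.head_induction_on with
    | refl => exact ⟨0, hs⟩
    | head h1 h2 ih =>
      obtain ⟨n, hn⟩ := ih h2
      exact ⟨n + 1, _, h1.2, h1.1, hn⟩
  · rintro ⟨n, hn⟩
    induction n generalizing x with
    | zero => exact ⟨x, Relation.ReflTransGen.refl, hn⟩
    | succ n ih =>
      obtain ⟨p, hp, hxp, hn⟩ := hn
      obtain ⟨a, ha, hs⟩ := ih p hn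
      exact ⟨a, Relation.ReflTransGen.head ⟨hxp, hp⟩ ha, hs⟩

theorem measurableSet_hsN (h3 : MSumStatement) {T E : Type} [MeasurableSpace T]
    [MeasurableSpace E] {adj : E → E → Prop} (hadj : MAdj adj) (s : T → E → Prop)
    (hs : MeasurableSet {q : T × E | s q.1 q.2}) (n : ℕ) :
    MeasurableSet {q : T × E × Cfg E | HsN adj (s q.1) (pt q.2.2) n q.2.1} := by
  induction n with
  | zero =>
    have hm : Measurable fun q : T × E × Cfg E => (q.1, q.2.1) := by fun_prop
    exact hm hs
  | succ n ih =>
    have h := h3.2.1 (T × E) E (fun t p P => adj t.2 p ∧ HsN adj (s t.1) P n p) (by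
      have hm1 : Measurable fun q : (T × E) × E × Cfg E => (q.1.2, q.2.1) := by fun_prop
      have hm2 : Measurable fun q : (T × E) × E × Cfg E => (q.1.1, q.2.1, q.2.2) := by fun_prop
      exact (hm1 hadj).inter (hm2 ih))
    have hm3 : Measurable fun q : T × E × Cfg E => ((q.1, q.2.1), q.2.2) := by fun_prop
    exact hm3 h

theorem measurableSet_hs (h3 : MSumStatement) {T E : Type} [MeasurableSpace T]
    [MeasurableSpace E] {adj : E → E → Prop} (hadj : MAdj adj) (s : T → E → Prop)
    (hs : MeasurableSet {q : T × E | s q.1 q.2}) :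
    MeasurableSet {q : T × E × Cfg E | Hs adj (s q.1) (pt q.2.2) q.2.1} := by
  have : {q : T × E × Cfg E | Hs adj (s q.1) (pt q.2.2) q.2.1}
      = ⋃ n : ℕ, {q : T × E × Cfg E | HsN adj (s q.1) (pt q.2.2) n q.2.1} := by
    ext q
    rw [Set.mem_iUnion]
    exact hs_iff_hsN adj (s q.1) (pt q.2.2) q.2.1
  rw [this]
  exact MeasurableSet.iUnion fun n => measurableSet_hsN h3 hadj s hs n

theorem measurableSet_con (h3 : MSumStatement) {E : Type}
    [MeasurableSpace E] {adj : E → E → Prop} (hadj : MAdj adj) :
    MeasurableSet {q : E × E × Cfg E | Con adj (pt q.2.2) q.1 q.2.1} := by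
  have hs : MeasurableSet {q : E × E | (fun y a => adj a y) q.1 q.2} := by
    have hm : Measurable fun q : E × E => (q.2, q.1) := by fun_prop
    exact hm hadj
  have h := measurableSet_hs h3 hadj (fun y a => adj a y) hs
  have hm : Measurable fun q : E × E × Cfg E => (q.2.1, q.1, q.2.2) := by fun_prop
  exact hm h

theorem sFinite_PL {E : Type} [MeasurableSpace E] (ρ : Measure E) [IsFiniteMeasure ρ] :
    SFinite (PL ρ) := by
  unfold PL
  infer_instance

/-- CONM. Measurability of the connection events. -/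
theorem conm (h3 : MSumStatement) : ConMStatement := by
  intro E _ _ adj hadj
  have h1 := measurableSet_con h3 hadj
  refine ⟨h1, ?_, ?_, ?_⟩
  · intro s hs
    exact measurableSet_hs h3 hadj s hs
  · intro ρ hρ
    have := sFinite_PL ρ
    have hm : Measurable fun q : (E × E) × Cfg E => (q.1.1, q.1.2, q.2) := by fun_prop
    have h2 := measurable_measure_prodMk_left (ν := PL ρ) (hm h1)
    exact h2
  · have hm : Measurable fun q : E × E × Cfg E => ind (Con adj (pt q.2.2) q.1 q.2.1) :=
      measurable_ind h1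
    exact h3.1 E E (fun x p P => ind (Con adj P x p)) hm

end Pool.Agent.Lib.MP_5349a4_pr.H48
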