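import Pool.Agent.Lib.MP_5349a4_pr.M.Iface4
import Pool.Agent.Lib.MP_5349a4_pr.M.Base

/-!
# Module TWO: two invasions with disjoint trees (section 10 of Paper.md)
-/

set_option autoImplicit false
open MeasureTheory Set
open scoped ENNReal NNReal

namespace Pool.Agent.Lib.MP_5349a4_pr.H48

section Two
variable {d : ℕ}

theorem lf_of_finite {P : Set (Eu d)} (h : P.Finite) : LF P := fun _ _ => h.inter_of_left _

theorem occ_congr {th : ℕ → ℝ} {P Q : Set (Eu d)} {o : Eu d} {n : ℕ}
    (hinv : ∀ j ≤ n, inv Q o j = inv P o j) (hlab : ∀ j < n, lab Q o j = lab P o j)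
    (f : Eu d → ℝ≥0∞) : occ th Q o (n + 1) f = occ th P o (n + 1) f := by
  unfold occ
  refine Finset.sum_congr rfl fun i hi => ?_
  have hi' : i ≤ n := Nat.lt_succ_iff.1 (Finset.mem_range.1 hi)
  have h1 : good th Q o i ↔ good th P o i := by
    unfold good
    constructor
    · intro h j hj
      rw [← hlab j (by omega)]
      exact h j hj
    · intro h j hj
      rw [hlab j (by omega)]
      exact h j hj
  have h2 : newp Q o i = newp P o i := by
    cases i with
    | zero => rfl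
    | succ i =>
      show inv Q o (i + 1) \ inv Q o i = inv P o (i + 1) \ inv P o i
      rw [hinv _ hi', hinv i (by omega)]
  rw [ind_congr h1]
  unfold nnew
  rw [h2]

theorem good_mono {th : ℕ → ℝ} {P : Set (Eu d)} {o : Eu d} {i n : ℕ} (h : i ≤ n)
    (hg : good th P o n) : good th P o i := fun j hj => hg j (by omega)

theorem exists_newp {P : Set (Eu d)} {o p : Eu d} (n : ℕ) (hp : p ∈ inv P o n) :
    ∃ i ≤ n, p ∈ newp P o i := by
  induction n with
  | zero => exact ⟨0, le_rfl, hp⟩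
  | succ n ih =>
    by_cases h : p ∈ inv P o n
    · obtain ⟨i, hi, hpi⟩ := ih h
      exact ⟨i, by omega, hpi⟩
    · exact ⟨n + 1, le_rfl, hp, h⟩

theorem le_occ {th : ℕ → ℝ} {P : Set (Eu d)} {o p : Eu d} {n : ℕ} (hg : good th P o n)
    (hp : p ∈ inv P o n) (f : Eu d → ℝ≥0∞) : f p ≤ occ th P o (n + 1) f := by
  obtain ⟨i, hi, hpi⟩ := exists_newp n hp
  unfold occ
  have h1 : ind (good th P o i) * nnew P o i f ≤
      ∑ i ∈ Finset.range (n + 1), ind (good th P o i) * nnew P o i f :=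
    Finset.single_le_sum (f := fun i => ind (good th P o i) * nnew P o i f)
      (fun _ _ => zero_le) (Finset.mem_range.2 (by omega))
  refine le_trans ?_ h1
  rw [ind_of (good_mono hi hg), one_mul]
  unfold nnew
  exact ENNReal.le_tsum (f := fun q : newp P o i => f q) ⟨p, hpi⟩

theorem measurable_occ (hm : InvMStatement) (th : ℕ → ℝ) (m : ℕ) {T : Type} [MeasurableSpace T]
    (f : T → Eu d → ℝ≥0∞) (hf : Measurable fun q : T × Eu d => f q.1 q.2) :
    Measurable fun q : T × Eu d × Cfg (Eu d) => occ th (pt q.2.2) q.2.1 m (f q.1) := by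
  unfold occ
  refine Finset.measurable_sum _ fun i _ => ?_
  have h1 : MeasurableSet {q : T × Eu d × Cfg (Eu d) | good th (pt q.2.2) q.2.1 i} := by
    have hs := (hm d i).2.2.2.1 th
    have hme : Measurable fun q : T × Eu d × Cfg (Eu d) => (q.2.1, q.2.2) := by fun_prop
    exact hme hs
  exact (measurable_ind h1).mul ((hm d i).2.2.2.2.1 T f hf)

theorem newp_countable (hd : InvDStatement) {P : Set (Eu d)} (hP : P.Finite) (o : Eu d) (i : ℕ) :
    (newp P o i).Countable := by
  have h := hd d P P o (lf_of_finite hP) (lf_of_finite hP)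
  cases i with
  | zero => exact Set.countable_singleton o
  | succ i => exact ((h.1 (i + 1)).2.2.subset Set.sdiff_subset).countable

theorem lintegral_occ (hd : InvDStatement) (th : ℕ → ℝ) {P : Set (Eu d)} (hP : P.Finite)
    (o : Eu d) (m : ℕ) {Ω : Type} [MeasurableSpace Ω] (μ : Measure Ω) (H : Eu d → Ω → ℝ≥0∞)
    (hH : ∀ b, Measurable (H b)) :
    ∫⁻ ω, occ th P o m (fun b => H b ω) ∂μ = occ th P o m (fun b => ∫⁻ ω, H b ω ∂μ) := by
  unfold occ
  have hmt : ∀ i, Measurable fun ω => nnew P o i (fun b => H b ω) := by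
    intro i
    unfold nnew
    have := (newp_countable hd hP o i).to_subtype
    exact Measurable.tsum fun p => hH p
  rw [lintegral_finsetSum _ fun i _ => (hmt i).const_mul _]
  refine Finset.sum_congr rfl fun i _ => ?_
  rw [lintegral_const_mul _ (hmt i)]
  congr 1
  unfold nnew
  have := (newp_countable hd hP o i).to_subtype
  exact lintegral_tsum fun p => (hH p).aemeasurable

/-- The event of the statement. -/
def Target (x y : Eu d) (n : ℕ) (P : Set (Eu d)) : Prop :=
  (∀ j < n, lab (insert y P) x j ≤ 2) ∧ (∀ j < n, lab (insert x P) y j ≤ 2) ∧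
    Disjoint (inv (insert y P) x n) (inv (insert x P) y n)

theorem ofReal_th {th : ℕ → ℝ} (hth : ∀ j, th j ≤ 2) (j : ℕ) :
    ENNReal.ofReal (th j) ≤ 2 := by
  calc ENNReal.ofReal (th j) ≤ ENNReal.ofReal 2 := ENNReal.ofReal_le_ofReal (hth j)
    _ = 2 := by norm_num

/-- Deterministic part: two good invasions without close points. -/
theorem target_of_good (hd : InvDStatement) {th : ℕ → ℝ} (hth : ∀ j, th j ≤ 2)
    {P P' : Set (Eu d)} (hP : P.Finite) (hP' : P'.Finite) {x y : Eu d} {n : ℕ}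
    (hx : good th P x n)
    (hy : good th ((P \ wet P x n) ∪ (P' ∩ wet P x n)) y n)
    (hsep : ∀ p ∈ inv P x n, ∀ q ∈ inv ((P \ wet P x n) ∪ (P' ∩ wet P x n)) y n, 4 < dist q p) :
    Target x y n P := by
  set P'' := (P \ wet P x n) ∪ (P' ∩ wet P x n) with hP''def
  have hP'' : P''.Finite := (hP.subset Set.sdiff_subset).union (hP'.subset Set.inter_subset_left)
  have mem0 : ∀ (Q : Set (Eu d)) (o : Eu d) (k : ℕ), o ∈ inv Q o k := by
    intro Q o k
    induction k with
    | zero => exact rfl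
    | succ k ih => exact Or.inl ih
  have dP := hd d P P x (lf_of_finite hP) (lf_of_finite hP)
  have dP'' := hd d P'' P'' y (lf_of_finite hP'') (lf_of_finite hP'')
  have w1 := (dP.2.2.2.1 th n hth hx).2
  have w2 := (dP''.2.2.2.1 th n hth hy).2
  have hxR := mem0 P x n
  have hyR := mem0 P'' y n
  -- the first invasion
  have q1 : (insert y P) ∩ wet P x n = P ∩ wet P x n := by
    ext e
    constructor
    · rintro ⟨he | he, hw⟩
      · exfalso
        obtain ⟨u, hu, hue⟩ := w1 hw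
        rw [he] at hue
        have := hsep u hu y hyR
        linarith
      · exact ⟨he, hw⟩
    · rintro ⟨he, hw⟩
      exact ⟨Or.inr he, hw⟩
  have i1 := (hd d P (insert y P) x (lf_of_finite hP) (lf_of_finite (hP.insert y))).2.2.1 n q1
  -- the second invasion
  have q2 : (insert x P) ∩ wet P'' y n = P'' ∩ wet P'' y n := by
    ext e
    constructor
    · rintro ⟨he, hw⟩
      obtain ⟨v, hv, hve⟩ := w2 hw
      have hew : e ∉ wet P x n := by
        intro hw'
        obtain ⟨u, hu, hue⟩ := w1 hw'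
        have h1 := hsep u hu v hv
        have h2 := dist_triangle v e u
        rw [dist_comm v e] at h2
        linarith
      rcases he with he | he
      · exfalso
        rw [he] at hve
        have := hsep x hxR v hv
        rw [dist_comm] at this
        linarith
      · exact ⟨Or.inl ⟨he, hew⟩, hw⟩
    · rintro ⟨he, hw⟩
      obtain ⟨v, hv, hve⟩ := w2 hw
      have hew : e ∉ wet P x n := by
        intro hw'
        obtain ⟨u, hu, hue⟩ := w1 hw'
        have h1 := hsep u hu v hv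
        have h2 := dist_triangle v e u
        rw [dist_comm v e] at h2
        linarith
      rcases he with he | he
      · exact ⟨Or.inr he.1, hw⟩
      · exact absurd he.2 hew
  have i2 := (hd d P'' (insert x P) y (lf_of_finite hP'') (lf_of_finite (hP.insert x))).2.2.1 n q2
  refine ⟨fun j hj => ?_, fun j hj => ?_, ?_⟩
  · rw [i1.2.1 j hj]
    exact (hx j hj).trans (ofReal_th hth j)
  · rw [i2.2.1 j hj]
    exact (hy j hj).trans (ofReal_th hth j)
  · rw [i1.1 n le_rfl, i2.1 n le_rfl, Set.disjoint_left]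
    intro p hp hq
    have := hsep p hp p hq
    rw [dist_self] at this
    linarith

/-- close pairs -/
noncomputable def NN (th : ℕ → ℝ) (x y : Eu d) (n : ℕ) (A B : Set (Eu d)) : ℝ≥0∞ :=
  occ th A x (n + 1) fun b => occ th B y (n + 1) fun p => ind (dist p b ≤ 4)

theorem pointwise (hd : InvDStatement) {th : ℕ → ℝ} (hth : ∀ j, th j ≤ 2)
    {P P' : Set (Eu d)} (hP : P.Finite) (hP' : P'.Finite) (x y : Eu d) (n : ℕ) :
    ind (good th P x n) * ind (good th ((P \ wet P x n) ∪ (P' ∩ wet P x n)) y n)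
      ≤ ind (Target x y n P) + NN th x y n P ((P \ wet P x n) ∪ (P' ∩ wet P x n)) := by
  by_cases h1 : good th P x n
  swap
  · rw [ind_not h1, zero_mul]
    exact zero_le
  by_cases h2 : good th ((P \ wet P x n) ∪ (P' ∩ wet P x n)) y n
  swap
  · rw [ind_not h2, mul_zero]
    exact zero_le
  rw [ind_of h1, ind_of h2, mul_one]
  by_cases h3 : ∀ p ∈ inv P x n, ∀ q ∈ inv ((P \ wet P x n) ∪ (P' ∩ wet P x n)) y n,
      4 < dist q p
  · rw [ind_of (target_of_good hd hth hP hP' h1 h2 h3)]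
    exact le_self_add
  · push Not at h3
    obtain ⟨p, hp, q, hq, hpq⟩ := h3
    refine le_trans ?_ le_add_self
    unfold NN
    refine le_trans ?_ (le_occ h1 hp _)
    refine le_trans ?_ (le_occ h2 hq _)
    rw [ind_of hpq]

theorem restr (hd : InvDStatement) {P : Set (Eu d)} (hP : P.Finite) (x : Eu d) (n : ℕ) :
    (∀ j ≤ n, inv (P ∩ wet P x n) x j = inv P x j) ∧
      (∀ j < n, lab (P ∩ wet P x n) x j = lab P x j) := by
  have := (hd d P (P ∩ wet P x n) x (lf_of_finite hP)
    (lf_of_finite (hP.inter_of_left _))).2.2.1 n (by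
      rw [Set.inter_assoc, Set.inter_self])
  exact ⟨this.1, this.2.1⟩

theorem good_restr (hd : InvDStatement) (th : ℕ → ℝ) {P : Set (Eu d)} (hP : P.Finite) (x : Eu d)
    (n : ℕ) : good th (P ∩ wet P x n) x n ↔ good th P x n := by
  have h := (restr hd hP x n).2
  unfold good
  constructor
  · intro hg j hj
    rw [← h j hj]
    exact hg j hj
  · intro hg j hj
    rw [h j hj]
    exact hg j hj

theorem NN_restr (hd : InvDStatement) (th : ℕ → ℝ) {P : Set (Eu d)} (hP : P.Finite) (x y : Eu d)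
    (n : ℕ) (B : Set (Eu d)) : NN th x y n (P ∩ wet P x n) B = NN th x y n P B := by
  have h := restr hd hP x n
  exact occ_congr h.1 h.2 _

end Two

section Main
variable {d : ℕ}

theorem measurable_occ1 (hm : InvMStatement) (th : ℕ → ℝ) (n : ℕ) (v : Eu d) :
    Measurable fun q : Eu d × Eu d × Cfg (Eu d) =>
      occ th (pt q.2.2) q.2.1 (n + 1) (fun p => ind (dist (p + v) q.1 ≤ 4)) := by
  refine measurable_occ hm th (n + 1) (fun b p : Eu d => ind (dist (p + v) b ≤ 4)) ?_
  exact measurable_ind (measurableSet_le ((measurable_snd.add_const v).dist measurable_fst)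
    measurable_const)

theorem measurable_occ2 (hm : InvMStatement) (th : ℕ → ℝ) (n : ℕ) (v o : Eu d) :
    Measurable fun q : Eu d × Cfg (Eu d) =>
      occ th (pt q.2) o (n + 1) (fun p => ind (dist (p + v) q.1 ≤ 4)) := by
  have hme : Measurable fun q : Eu d × Cfg (Eu d) => (q.1, o, q.2) := by fun_prop
  have h := (measurable_occ1 hm th n v).comp hme
  simp only [Function.comp_def] at h
  exact h

theorem measurable_occ3 (hm : InvMStatement) (th : ℕ → ℝ) (n : ℕ) (o : Eu d) :
    Measurable fun q : Cfg (Eu d) × Eu d =>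
      occ th (pt q.1) o (n + 1) (fun p => ind (dist p q.2 ≤ 4)) := by
  have hme : Measurable fun q : Cfg (Eu d) × Eu d => (q.2, o, q.1) := by fun_prop
  have h := (measurable_occ1 hm th n (0 : Eu d)).comp hme
  simp only [Function.comp_def, add_zero] at h
  exact h

theorem measurable_NN (hm : InvMStatement) (th : ℕ → ℝ) (x y : Eu d) (n : ℕ) :
    Measurable fun q : Cfg (Eu d) × Cfg (Eu d) => NN th x y n (pt q.1) (pt q.2) := by
  unfold NN
  have h3 := measurable_occ hm th (n + 1)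
    (fun (B : Cfg (Eu d)) (b : Eu d) => occ th (pt B) y (n + 1) (fun p => ind (dist p b ≤ 4)))
    (measurable_occ3 hm th n y)
  have hme : Measurable fun q : Cfg (Eu d) × Cfg (Eu d) => (q.2, x, q.1) := by fun_prop
  have h := h3.comp hme
  simp only [Function.comp_def] at h
  exact h

/-- the resampled configuration is a measurable function of the two tuples -/
theorem measurable_resampled (h1 : MRestrStatement) (h2 : MOpsStatement) (hm : InvMStatement)
    (x : Eu d) (n : ℕ) :
    ∃ Φ : Cfg (Eu d) × Cfg (Eu d) → Cfg (Eu d), Measurable Φ ∧ ∀ ω ω',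
      pt (Φ (ω, ω')) = (pt ω \ wet (pt ω) x n) ∪ (pt ω' ∩ wet (pt ω) x n) := by
  have hW : MeasurableSet {q : Cfg (Eu d) × Eu d | q.2 ∈ wet (pt q.1) x n} := by
    have hme : Measurable fun q : Cfg (Eu d) × Eu d => (q.2, q.1) := by fun_prop
    exact hme (((hm d n).2.2.2.2.2 x).meas)
  obtain ⟨r1, hr1, hr1'⟩ := h1 (Cfg (Eu d)) (Eu d) _ hW
  obtain ⟨r2, hr2, hr2'⟩ := h1 (Cfg (Eu d)) (Eu d) _ hW.compl
  obtain ⟨a, ha, ha'⟩ := h2.1 (Eu d)
  refine ⟨fun q => a (r2 (q.1, q.1), r1 (q.1, q.2)), ?_, ?_⟩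
  · exact ha.comp ((hr2.comp (measurable_fst.prodMk measurable_fst)).prodMk
      (hr1.comp (measurable_fst.prodMk measurable_snd)))
  · intro ω ω'
    rw [ha', hr1', hr2']
    rfl

/-- the mean number of close pairs of two independent invasions -/
theorem lintegral_NN (hprob : ProbStatement) (hmunv : MunVStatement) (hd : InvDStatement)
    (hm : InvMStatement) (hd1 : 1 ≤ d) (lam : ℝ≥0) {th : ℕ → ℝ} (hth : ∀ j, th j ≤ 2)
    (x y : Eu d) (n : ℕ) (L : ℝ) (hx : 2 * ((n + 1 : ℕ) : ℝ) + 2 + ‖x‖ ≤ L)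
    (hy : 2 * ((n + 1 : ℕ) : ℝ) + 2 + ‖y‖ ≤ L) :
    ∫⁻ ω, ∫⁻ ω', NN th x y n (pt ω) (pt ω') ∂PL (leb lam (bal (0 : Eu d) L))
        ∂PL (leb lam (bal (0 : Eu d) L))
      = mun d lam th (2 * ((n + 1 : ℕ) : ℝ) + 2) (n + 1) (fun b =>
          mun d lam th (2 * ((n + 1 : ℕ) : ℝ) + 2) (n + 1) fun p =>
            ind (dist p (b + (x - y)) ≤ 4)) := by
  have hfin : IsFiniteMeasure (leb lam (bal (0 : Eu d) L)) :=
    finite_leb lam Metric.isBounded_closedBall
  set L1 : ℝ := 2 * ((n + 1 : ℕ) : ℝ) + 2 with hL1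
  have hfin1 : IsFiniteMeasure (leb lam (bal (0 : Eu d) L1)) :=
    finite_leb lam Metric.isBounded_closedBall
  have hpr := (hprob (Eu d) (leb lam (bal (0 : Eu d) L))).1
  have hpr1 := (hprob (Eu d) (leb lam (bal (0 : Eu d) L1))).1
  -- inner integral
  have e1 : ∀ ω : Cfg (Eu d), ∫⁻ ω', NN th x y n (pt ω) (pt ω') ∂PL (leb lam (bal (0 : Eu d) L))
      = occ th (pt ω) x (n + 1) (fun b => mun d lam th L1 (n + 1)
          (fun p => ind (dist (p + y) b ≤ 4))) := by
    intro ω
    unfold NN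
    have hb : ∀ b : Eu d, Measurable fun ω' : Cfg (Eu d) =>
        occ th (pt ω') y (n + 1) fun p => ind (dist p b ≤ 4) := by
      intro b
      have hme : Measurable fun ω' : Cfg (Eu d) => (b, ω') := by fun_prop
      have h := (measurable_occ2 hm th n (0 : Eu d) y).comp hme
      simp only [Function.comp_def, add_zero] at h
      exact h
    rw [lintegral_occ hd th (pt_finite ω) x (n + 1) (PL (leb lam (bal (0 : Eu d) L)))
      (fun b ω' => occ th (pt ω') y (n + 1) fun p => ind (dist p b ≤ 4)) hb]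
    congr 1
    funext b
    exact (hmunv d lam th (n + 1) L1 L y (fun p => ind (dist p b ≤ 4)) hd1 hth
      (measurable_ind (measurableSet_le (measurable_id.dist measurable_const) measurable_const))
      le_rfl hy).1
  simp_rw [e1]
  have hF : Measurable fun b : Eu d => mun d lam th L1 (n + 1)
      (fun p => ind (dist (p + y) b ≤ 4)) := by
    unfold mun
    exact (measurable_occ2 hm th n y (0 : Eu d)).lintegral_prod_right'
  have h3 := (hmunv d lam th (n + 1) L1 L x (fun b => mun d lam th L1 (n + 1)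
      (fun p => ind (dist (p + y) b ≤ 4))) hd1 hth hF le_rfl hx).1
  rw [h3]
  congr 1
  funext b
  congr 1
  funext p
  have : dist (p + y) (b + x) = dist p (b + (x - y)) := by
    rw [dist_eq_norm, dist_eq_norm]
    congr 1
    abel
  rw [this]

theorem thr_le_two {κ m0 : ℕ} (hm0 : 1 ≤ m0) (j : ℕ) : thr κ m0 j ≤ 2 := by
  unfold thr
  split_ifs
  · norm_num
  · have h1 : (1 : ℝ) ≤ ((2 ^ Nat.log 2 (j / m0) * m0 : ℕ) : ℝ) := by
      exact_mod_cast Nat.one_le_iff_ne_zero.2 (Nat.mul_ne_zero (by positivity) (by omega))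
    have h2 := Real.rpow_le_one_of_one_le_of_nonpos h1
      (show -(1 / (6 * (κ : ℝ))) ≤ 0 by
        have : (0 : ℝ) ≤ 1 / (6 * (κ : ℝ)) := by positivity
        linarith)
    linarith

/-- TWO. Two invasions stay disjoint with positive probability. -/
theorem two (h1 : MRestrStatement) (h2 : MOpsStatement) (hprob : ProbStatement) (hres : ResampStatement) (hpos : PosStatement)
    (hgrow : GrowStatement) (hrot : RotMStatement) (hmunv : MunVStatement)
    (hpair : PairEStatement) (hd : InvDStatement) (hm : InvMStatement) : TwoStatement := by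
  intro d lam κ A hC
  have hκ := hC.hκ
  have hdκ := hC.hd
  have hκ2 : 1 ≤ κ ^ 2 := Nat.one_le_pow _ _ hκ
  have hd1 : 1 ≤ d := by omega
  obtain ⟨M1, hM1⟩ := hpos d lam κ A hC
  obtain ⟨M2, hM2⟩ := hgrow d lam κ A hC
  set m0 := max 1 (max M1 M2) with hm0
  have hm01 : 1 ≤ m0 := le_max_left _ _
  obtain ⟨p₀, hp₀, hpg⟩ := hM1 m0 ((le_max_left _ _).trans (le_max_right _ _))
  obtain ⟨C, hC0, hg⟩ := hM2 m0 ((le_max_right _ _).trans (le_max_right _ _))
  set th := thr κ m0 with hthdef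
  have hth : ∀ j, th j ≤ 2 := thr_le_two hm01
  set k := 13 * κ ^ 2 with hk
  have hkd : 2 * k + 2 ≤ d := by omega
  set C1 : ℝ := 10 ^ d * 3 ^ k * C with hC1
  have hCC1 : C ≤ C1 := by
    have h1 : (1 : ℝ) ≤ 10 ^ d * 3 ^ k :=
      one_le_mul_of_one_le_of_one_le (one_le_pow₀ (by norm_num)) (one_le_pow₀ (by norm_num))
    calc C = 1 * C := (one_mul C).symm
      _ ≤ 10 ^ d * 3 ^ k * C := mul_le_mul_of_nonneg_right h1 hC0.le
  have hC10 : 0 < C1 := hC0.trans_le hCC1
  obtain ⟨C', hC'0, hC'⟩ := hpair d k C1 hkd hC10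
  have hp₀r : (0 : ℝ) < (p₀ : ℝ) := by exact_mod_cast hp₀
  set D : ℝ := max 50 (2 + 2 * C' / (p₀ : ℝ) ^ 2) with hD
  have hD50 : 50 ≤ D := le_max_left _ _
  have hDC : 2 * C' / (p₀ : ℝ) ^ 2 ≤ D - 2 := by
    have := le_max_right (50 : ℝ) (2 + 2 * C' / (p₀ : ℝ) ^ 2)
    rw [← hD] at this
    linarith
  have hnt : Nontrivial (Eu d) := by
    have : Nonempty (Fin d) := ⟨⟨0, by omega⟩⟩
    infer_instance
  obtain ⟨y₀, hy₀⟩ := exists_norm_eq (Eu d) (show (0 : ℝ) ≤ D by linarith)
  refine ⟨y₀, p₀ ^ 2 / 2, by rw [hy₀]; linarith, by positivity, ?_⟩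
  intro x y n L hx hy hL
  have hxn : ‖x‖ ≤ 1 := by
    have : dist x 0 ≤ 1 := hx
    rwa [dist_zero_right] at this
  have hyy : ‖y - y₀‖ ≤ 1 := by
    have : dist y y₀ ≤ 1 := hy
    rwa [dist_eq_norm] at this
  have hyn : ‖y‖ ≤ ‖y₀‖ + 1 := by
    have := norm_add_le y₀ (y - y₀)
    rw [add_sub_cancel] at this
    linarith
  have hxy : D - 2 ≤ ‖x - y‖ := by
    have h1 : y₀ = (x - (y - y₀)) - (x - y) := by abel
    have h2 : ‖y₀‖ ≤ ‖x - (y - y₀)‖ + ‖x - y‖ := by
      calc ‖y₀‖ = ‖(x - (y - y₀)) - (x - y)‖ := by rw [← h1]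
        _ ≤ _ := norm_sub_le _ _
    have h3 := norm_sub_le x (y - y₀)
    linarith
  set ρ := leb lam (bal (0 : Eu d) L) with hρ
  have hfin : IsFiniteMeasure ρ := finite_leb lam Metric.isBounded_closedBall
  have hnull : NullSingletonClass ρ := noAtoms_leb hd1 lam _
  have hpr : IsProbabilityMeasure (PL ρ) := (hprob (Eu d) ρ).1
  have hstop : Stop (fun P : Set (Eu d) => wet P x n) := (hm d n).2.2.2.2.2 x
  have hLn : 2 * ((n + 1 : ℕ) : ℝ) + 2 + ‖x‖ ≤ L := by
    push_cast
    linarith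
  have hLy : 2 * ((n + 1 : ℕ) : ℝ) + 2 + ‖y‖ ≤ L := by
    push_cast
    linarith
  -- both good
  have hgm : ∀ o : Eu d, MeasurableSet {ω : Cfg (Eu d) | good th (pt ω) o n} := by
    intro o
    have hs := (hm d n).2.2.2.1 th
    have hme : Measurable fun ω : Cfg (Eu d) => (o, ω) := by fun_prop
    exact hme hs
  have hFm : Measurable fun q : Cfg (Eu d) × Cfg (Eu d) =>
      (fun A B => ind (good th A x n) * ind (good th B y n)) (pt q.1) (pt q.2) :=
    (measurable_ind (measurable_fst (hgm x))).mul (measurable_ind (measurable_snd (hgm y)))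
  have r1 := hres (Eu d) ρ (fun P => wet P x n)
    (fun A B => ind (good th A x n) * ind (good th B y n)) hstop hFm
  have r2 := hres (Eu d) ρ (fun P => wet P x n) (fun A B => NN th x y n A B) hstop
    (measurable_NN hm th x y n)
  beta_reduce at r1 r2
  have s1 : ∀ ω : Cfg (Eu d), ind (good th (pt ω ∩ wet (pt ω) x n) x n)
      = ind (good th (pt ω) x n) := fun ω => ind_congr (good_restr hd th (pt_finite ω) x n)
  have s2 : ∀ (ω : Cfg (Eu d)) (B : Set (Eu d)), NN th x y n (pt ω ∩ wet (pt ω) x n) B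
      = NN th x y n (pt ω) B := fun ω B => NN_restr hd th (pt_finite ω) x y n B
  simp_rw [s1] at r1
  simp_rw [s2] at r2
  -- the value of the first right side
  have v1 : ∫⁻ ω, ∫⁻ ω', ind (good th (pt ω) x n) * ind (good th (pt ω') y n) ∂PL ρ ∂PL ρ
      = PL ρ {ω | good th (pt ω) x n} * PL ρ {ω | good th (pt ω) y n} := by
    have : ∀ ω : Cfg (Eu d), ∫⁻ ω', ind (good th (pt ω) x n) * ind (good th (pt ω') y n) ∂PL ρ
        = ind (good th (pt ω) x n) * PL ρ {ω | good th (pt ω) y n} := by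
      intro ω
      rw [lintegral_const_mul _ (measurable_ind (hgm y)), lintegral_ind (hgm y)]
    simp_rw [this]
    rw [lintegral_mul_const _ (measurable_ind (hgm x)), lintegral_ind (hgm x)]
  have gx : (p₀ : ℝ≥0∞) ≤ PL ρ {ω | good th (pt ω) x n} := by
    rw [(hmunv d lam th n (2 * (n : ℝ) + 2) L x (fun _ => 0) hd1 hth measurable_const le_rfl
      (by push_cast at hLn; linarith)).2]
    exact hpg n _ le_rfl
  have gy : (p₀ : ℝ≥0∞) ≤ PL ρ {ω | good th (pt ω) y n} := by
    rw [(hmunv d lam th n (2 * (n : ℝ) + 2) L y (fun _ => 0) hd1 hth measurable_const le_rfl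
      (by push_cast at hLy; linarith)).2]
    exact hpg n _ le_rfl
  -- close pairs
  have v2 : ∫⁻ ω, ∫⁻ ω', NN th x y n (pt ω) (pt ω') ∂PL ρ ∂PL ρ
      ≤ ENNReal.ofReal (C' / ‖x - y‖) := by
    rw [lintegral_NN hprob hmunv hd hm hd1 lam hth x y n L hLn hLy]
    have b1 : ∀ s : ℝ, 1 ≤ s → mun d lam th (2 * ((n + 1 : ℕ) : ℝ) + 2) (n + 1)
        (fun b => ind (b ∈ bal 0 s)) ≤ ENNReal.ofReal (C * s ^ k) := fun s hs => hg _ _ s hs
    refine hC' lam th _ (n + 1) (fun s hs => (b1 s hs).trans (ENNReal.ofReal_le_ofReal ?_)) ?_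
      (x - y) (by linarith)
    · exact mul_le_mul_of_nonneg_right hCC1 (by positivity)
    · exact (hrot d lam th _ (n + 1) k C hd1 hC0 (by omega) b1).2
  -- main estimate
  have main : (p₀ : ℝ≥0∞) ^ 2 ≤ PL ρ {ω | Target x y n (pt ω)} + ENNReal.ofReal (C' / ‖x - y‖) := by
    calc (p₀ : ℝ≥0∞) ^ 2 ≤ PL ρ {ω | good th (pt ω) x n} * PL ρ {ω | good th (pt ω) y n} := by
          rw [pow_two]
          exact mul_le_mul' gx gy
      _ = ∫⁻ ω, ∫⁻ ω', ind (good th (pt ω) x n) *
            ind (good th (pt ω \ wet (pt ω) x n ∪ pt ω' ∩ wet (pt ω) x n) y n) ∂PL ρ ∂PL ρ := by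
          rw [r1, v1]
      _ ≤ ∫⁻ ω, ∫⁻ ω', (ind (Target x y n (pt ω)) +
            NN th x y n (pt ω) (pt ω \ wet (pt ω) x n ∪ pt ω' ∩ wet (pt ω) x n)) ∂PL ρ ∂PL ρ :=
          lintegral_mono fun ω => lintegral_mono fun ω' =>
            pointwise hd hth (pt_finite ω) (pt_finite ω') x y n
      _ = ∫⁻ ω, (ind (Target x y n (pt ω)) + ∫⁻ ω',
            NN th x y n (pt ω) (pt ω \ wet (pt ω) x n ∪ pt ω' ∩ wet (pt ω) x n) ∂PL ρ) ∂PL ρ := by
          refine lintegral_congr fun ω => ?_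
          rw [lintegral_add_left measurable_const, lintegral_const, measure_univ, mul_one]
      _ = ∫⁻ ω, ind (Target x y n (pt ω)) ∂PL ρ + ∫⁻ ω, ∫⁻ ω',
            NN th x y n (pt ω) (pt ω \ wet (pt ω) x n ∪ pt ω' ∩ wet (pt ω) x n) ∂PL ρ ∂PL ρ := by
          obtain ⟨Φ, hΦ, hΦ'⟩ := measurable_resampled h1 h2 hm x n
          have hj : Measurable fun q : Cfg (Eu d) × Cfg (Eu d) =>
              NN th x y n (pt q.1) (pt q.1 \ wet (pt q.1) x n ∪ pt q.2 ∩ wet (pt q.1) x n) := by
            have h := (measurable_NN hm th x y n).comp (measurable_fst.prodMk hΦ)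
            simp only [Function.comp_def] at h
            have he : (fun q : Cfg (Eu d) × Cfg (Eu d) => NN th x y n (pt q.1) (pt (Φ q)))
                = fun q => NN th x y n (pt q.1)
                    (pt q.1 \ wet (pt q.1) x n ∪ pt q.2 ∩ wet (pt q.1) x n) := by
              funext q
              have e := hΦ' q.1 q.2
              rw [Prod.mk.eta] at e
              rw [e]
            rw [← he]
            exact h
          rw [lintegral_add_right _ hj.lintegral_prod_right']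
      _ ≤ _ := by
          refine add_le_add ?_ (r2.trans_le v2)
          have : (fun ω : Cfg (Eu d) => ind (Target x y n (pt ω)))
              = Set.indicator {ω | Target x y n (pt ω)} 1 := by
            funext ω
            by_cases h : Target x y n (pt ω)
            · rw [ind_of h, Set.indicator_of_mem (show ω ∈ {ω | Target x y n (pt ω)} from h)]
              rfl
            · rw [ind_not h, Set.indicator_of_notMem (show ω ∉ {ω | Target x y n (pt ω)} from h)]
          rw [this]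
          exact lintegral_indicator_one_le _
  have hsmall : C' / ‖x - y‖ ≤ (p₀ : ℝ) ^ 2 / 2 := by
    have hpos2 : 0 < D - 2 := by linarith
    rw [div_le_iff₀ (by positivity)] at hDC
    rw [div_le_iff₀ (hpos2.trans_le hxy)]
    nlinarith [mul_le_mul_of_nonneg_left hxy (by positivity : (0 : ℝ) ≤ (p₀ : ℝ) ^ 2)]
  have hc : ENNReal.ofReal (C' / ‖x - y‖) ≤ ((p₀ ^ 2 / 2 : ℝ≥0) : ℝ≥0∞) := by
    rw [← ENNReal.ofReal_coe_nnreal]
    apply ENNReal.ofReal_le_ofReal
    push_cast
    exact hsmall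
  have hsum : (p₀ : ℝ≥0∞) ^ 2 = ((p₀ ^ 2 / 2 : ℝ≥0) : ℝ≥0∞) + ((p₀ ^ 2 / 2 : ℝ≥0) : ℝ≥0∞) := by
    rw [← ENNReal.coe_add, ← ENNReal.coe_pow, add_halves]
  have hfinal : ((p₀ ^ 2 / 2 : ℝ≥0) : ℝ≥0∞) + ((p₀ ^ 2 / 2 : ℝ≥0) : ℝ≥0∞)
      ≤ PL ρ {ω | Target x y n (pt ω)} + ((p₀ ^ 2 / 2 : ℝ≥0) : ℝ≥0∞) := by
    rw [← hsum]
    exact main.trans (add_le_add le_rfl hc)
  exact ENNReal.le_of_add_le_add_right ENNReal.coe_ne_top hfinal

end Main

end Pool.Agent.Lib.MP_5349a4_pr.H48
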